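import Pool.Agent.Run7.h105.PC.Defs

/-!
Project PC (helper105), piece LIM (second copy).
-/

set_option autoImplicit false

open Filter Topology Set MeasureTheory
open scoped ENNReal

namespace Run7.h459.PC

open Pool.Agent.Run7.h105.PC

theorem t_LIM : S_SUB → S_POS → S_LIM := by
  intro hsub hpos s hs
  have hs0 : 0 < s := by linarith
  obtain ⟨c0, hc0, hc⟩ := hpos s hs
  have hS : Subadditive (fun n : ℕ => (G s n : ℝ)) := by
    intro m n
    show (G s (m + n) : ℝ) ≤ (G s m : ℝ) + (G s n : ℝ)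
    exact_mod_cast hsub s hs0 m n
  have hlow : ∀ n : ℕ, n ≠ 0 → c0 ≤ (G s n : ℝ) / n := by
    intro n hn
    have hn' : (0 : ℝ) < n := by exact_mod_cast Nat.pos_of_ne_zero hn
    rw [le_div_iff₀ hn']
    exact hc n
  have hbdd : BddBelow (range fun n : ℕ => (G s n : ℝ) / n) := by
    refine ⟨0, ?_⟩
    rintro _ ⟨n, rfl⟩
    positivity
  have hT : Tendsto (fun n : ℕ => (G s n : ℝ) / n) atTop (𝓝 hS.lim) := hS.tendsto_lim hbdd
  refine ⟨hS.lim, ?_, ?_, ?_⟩
  · refine lt_of_lt_of_le hc0 ?_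
    refine ge_of_tendsto hT ?_
    filter_upwards [eventually_ge_atTop 1] with n hn
    exact hlow n (by omega)
  · intro n
    rcases Nat.eq_zero_or_pos n with h0 | h0
    · subst h0
      simp
    · have h := hS.lim_le_div hbdd h0.ne'
      have hn' : (0 : ℝ) < n := by exact_mod_cast h0
      rwa [le_div_iff₀ hn'] at h
  · intro ε hε
    have h1 : hS.lim < hS.lim + ε := by linarith
    obtain ⟨m, hlt, hm1⟩ := ((hT.eventually_lt_const h1).and (eventually_ge_atTop 1)).exists
    refine ⟨m, hm1, ?_⟩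
    have hm' : (0 : ℝ) < m := by exact_mod_cast hm1
    rw [div_lt_iff₀ hm'] at hlt
    exact hlt.le

end Run7.h459.PC
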